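import Pool.Agent.H15.RB.Noi
import Pool.Agent.H84.IT.QB

set_option autoImplicit false

/-!
MP_169871_nt, relative quadratic theorem: the core, for a set `S` of noise and a chain of supports
`U_j` with `|A + U_(2^i)| ≤ exp q |A|`.
-/

namespace Pool.H15.RB

open Finset Pool.Agent.H18 Pool.H84.IT Pool.H84.CP
open scoped Pointwise

lemma ent_le_of_supp {G : Type*} [AddCommGroup G] [Fintype G] (p : G → ℝ) (hp : IsPr p) (T : Finset G)
    (hT : ∀ x, p x ≠ 0 → x ∈ T) : entT p ≤ Real.log T.card := by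
  classical
  exact ent_le_log_card p hp.1 hp.2 T hT

theorem rel_core {N : ℕ} [NeZero N] (A S : Finset (ZMod N)) (hA : A.Nonempty)
    (U : ℕ → Finset (ZMod N)) (hS0 : (0 : ZMod N) ∈ S) (hSn : ∀ s ∈ S, -s ∈ S)
    (hU0 : ∀ j, (0 : ZMod N) ∈ U j) (hUn : ∀ j, ∀ u ∈ U j, -u ∈ U j)
    (hmono : ∀ j, U j ⊆ U (j + 1)) (hUS : ∀ j, ∀ s ∈ S, ∀ u ∈ U j, s + u ∈ U (j + 1))
    (q M0 M : ℝ) (hq : 1 ≤ q) (hM0 : Real.log ((N : ℝ) / (S.card : ℝ)) ≤ M0) (i : ℕ)
    (hAU : ((A + U (2 ^ i)).card : ℝ) ≤ Real.exp q * A.card)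
    (hM : M = M0 + 16 * q ^ 2 + 1536 * i * q ^ 2) (r : ℕ) (hr : 63 ≤ r)
    (hrM : 6 * M ≤ r * Real.log r)
    (hi : 32 * ((q + M0 + 5) * (64 * 257 * M * (r : ℝ) ^ 4)) ≤ 2 ^ i) :
    ∃ Γ : Finset (ZMod N), (Γ.card : ℝ) ≤ 15 * M / Real.log r + 2 ∧
      ∀ x : ZMod N, (∀ γ ∈ Γ, bn (γ * x) ≤ 1 / (4 * (r : ℝ))) →
        ∃ a₁ ∈ A, ∃ a₂ ∈ A, ∃ a₃ ∈ A, ∃ a₄ ∈ A, x = a₁ + a₂ - a₃ - a₄ := by
  classical
  have hN : (0 : ℝ) < N := by exact_mod_cast Nat.pos_of_ne_zero (NeZero.ne N)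
  have hc : (0 : ℝ) < A.card := by exact_mod_cast hA.card_pos
  have hSc : (0 : ℝ) < S.card := by exact_mod_cast Finset.card_pos.2 ⟨0, hS0⟩
  have hSN : (S.card : ℝ) ≤ N := by
    have := Finset.card_le_univ S
    rw [ZMod.card] at this
    exact_mod_cast this
  have hM00 : 0 ≤ M0 := by
    refine le_trans (Real.log_nonneg ?_) hM0
    rw [le_div_iff₀ hSc]
    linarith
  have hq0 : 0 < q := by linarith
  have huA : IsPr (unif A) := ⟨unif_nonneg _, sum_unif _ hA⟩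
  have hunA : IsPr (unif (-A)) := ⟨unif_nonneg _, sum_unif _ hA.neg⟩
  have hentA : entT (unif A) = Real.log A.card := ent_unif A hA
  have hentnA : entT (unif (-A)) = Real.log A.card := by
    have := ent_unif (-A) hA.neg
    rw [Finset.card_neg] at this
    exact this
  have hmono' : ∀ j k, j ≤ k → U j ⊆ U k := fun j k h => monotone_nat_of_le_succ hmono h
  -- entropies of smoothings
  have hAUc : 0 < ((A + U (2 ^ i)).card : ℝ) := by
    exact_mod_cast (hA.add ⟨0, hU0 _⟩).card_pos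
  have hlogAU : Real.log ((A + U (2 ^ i)).card : ℝ) ≤ Real.log A.card + q := by
    have h1 := Real.log_le_log hAUc hAU
    rw [Real.log_mul (Real.exp_pos q).ne' hc.ne', Real.log_exp] at h1
    linarith
  have hentω : ∀ j, j ≤ 2 ^ i → ∀ ν, PrOn (U j) ν → entT (cnv ν (unif A)) ≤ Real.log A.card + q := by
    intro j hj ν hν
    refine le_trans (ent_le_of_supp _ (hν.1.cnv huA) (A + U (2 ^ i)) ?_) hlogAU
    intro x hx
    unfold cnv at hx
    obtain ⟨s, -, hs⟩ := Finset.exists_ne_zero_of_sum_ne_zero hx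
    have h1 : s ∈ U j := by
      by_contra h
      exact hs (by rw [hν.2 s h, zero_mul])
    have h2 : x - s ∈ A := by
      by_contra h
      exact hs (by unfold unif; rw [if_neg h, mul_zero])
    exact Finset.mem_add.2 ⟨x - s, h2, s, hmono' _ _ hj h1, by ring⟩
  have hentπ : ∀ j, j ≤ 2 ^ i → ∀ ν, PrOn (U j) ν → entT (cnv ν (unif (-A))) ≤ Real.log A.card + q := by
    intro j hj ν hν
    have hcard : ((-(A + U (2 ^ i))).card : ℝ) = ((A + U (2 ^ i)).card : ℝ) := by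
      rw [Finset.card_neg]
    refine le_trans (ent_le_of_supp _ (hν.1.cnv hunA) (-(A + U (2 ^ i))) ?_) (by rw [hcard]; exact hlogAU)
    intro x hx
    unfold cnv at hx
    obtain ⟨s, -, hs⟩ := Finset.exists_ne_zero_of_sum_ne_zero hx
    have h1 : s ∈ U j := by
      by_contra h
      exact hs (by rw [hν.2 s h, zero_mul])
    have h2 : x - s ∈ -A := by
      by_contra h
      exact hs (by unfold unif; rw [if_neg h, mul_zero])
    rw [Finset.mem_neg'] at h2 ⊢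
    exact Finset.mem_add.2 ⟨-(x - s), h2, -s, hUn _ _ (hmono' _ _ hj h1), by ring⟩
  have hΛ0 : 0 < 16 * q := by positivity
  have hm0 : 0 < 2 ^ i := by positivity
  have hQf1 : ∀ p p' : ZMod N → ℝ, IsPr p → IsPr p' → Qf (gA A) p p' ≤ 1 := by
    intro p p' hp hp'
    unfold Qf
    calc ∑ x, ∑ w, p x * p' w * gA A (x + w) ≤ ∑ x, ∑ w, p x * p' w := by
          refine Finset.sum_le_sum fun x _ => Finset.sum_le_sum fun w _ => ?_
          have := mul_le_mul_of_nonneg_left (gA_le_one A (x + w)) (mul_nonneg (hp.1 x) (hp'.1 w))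
          linarith
      _ = 1 := by
          simp_rw [← Finset.mul_sum, hp'.2, mul_one]
          exact hp.2
  obtain ⟨j, hj, ν₁, ν₂, hν₁, hν₂, hgain, hst⟩ := exists_state_on (unif (-A)) (unif A) (gA A) (16 * q)
    (2 * q) hunA huA hΛ0.le (gA_nonneg A) (gA_le_one A) S hSn U hU0 hmono hUS (2 ^ i) hm0 (by
      intro τ₁ τ₂ h1 h2
      unfold Jf
      simp only
      rw [QB_start A hA, hentA, hentnA]
      have e1 := hentπ _ le_rfl τ₁ h1
      have e2 := hentω _ le_rfl τ₂ h2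
      have e3 := mul_le_mul_of_nonneg_left (hQf1 _ _ (h1.1.cnv hunA) (h2.1.cnv huA)) hΛ0.le
      linarith)
  have hπP : IsPr (cnv ν₁ (unif (-A))) := hν₁.1.cnv hunA
  have hωP : IsPr (cnv ν₂ (unif A)) := hν₂.1.cnv huA
  have hQ : 7 / 8 ≤ Qf (gA A) (cnv ν₁ (unif (-A))) (cnv ν₂ (unif A)) := by
    rw [QB_start A hA, hentA, hentnA] at hgain
    have h1 := hentπ _ hj.le ν₁ hν₁
    have h2 := hentω _ hj.le ν₂ hν₂
    have h3 : 16 * q * (7 / 8) ≤ 16 * q * Qf (gA A) (cnv ν₁ (unif (-A))) (cnv ν₂ (unif A)) := by linarith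
    exact le_of_mul_le_mul_left h3 hΛ0
  -- the noise
  have hpow0 : (0 : ℝ) < 2 ^ i := by positivity
  obtain ⟨σ, hσ, hmi, -, hdef⟩ := exists_noise_on S ⟨0, hS0⟩ _ _ hπP hωP (16 * q) q
    (2 * q / ((2 ^ i : ℕ) : ℝ)) hΛ0 (by
      intro τ hτ
      have e1 : cnv (rv τ) (cnv ν₁ (unif (-A))) = cnv (cnv (rv τ) ν₁) (unif (-A)) :=
        funext fun x => (cnv_assoc _ _ _ x).symm
      have h1 := hentπ (j + 1) hj (cnv (rv τ) ν₁) ((hτ.rv hSn).cnv hν₁ (hUS j))
      have h2 : entT (unif (-A)) ≤ entT (cnv ν₁ (unif (-A))) :=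
        ent_le_ent_cnv _ _ hν₁.1.1 hν₁.1.2 hunA.1
      rw [hentnA] at h2
      rw [e1]
      linarith) hst i (by
      rw [one_div, inv_pow, ← div_eq_mul_inv]
      push_cast
      refine div_le_div_of_nonneg_right ?_ hpow0.le
      linarith)
  -- parameters
  have hi0 : (0 : ℝ) ≤ i := Nat.cast_nonneg i
  have hM16 : 16 ≤ M := by
    have h1 : 1 ≤ q ^ 2 := one_le_pow₀ hq
    have h2 : 0 ≤ 1536 * i * q ^ 2 := by positivity
    rw [hM]
    linarith
  have hrr : (63 : ℝ) ≤ r := by exact_mod_cast hr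
  obtain ⟨E, hE⟩ : ∃ E : ℝ, E = 64 * 257 * M * (r : ℝ) ^ 4 := ⟨_, rfl⟩
  have hr4 : (1 : ℝ) ≤ (r : ℝ) ^ 4 := one_le_pow₀ (by linarith)
  have hE1 : 1 ≤ E := by
    rw [hE]
    have h2 : (1 : ℝ) * 1 ≤ 64 * 257 * M * (r : ℝ) ^ 4 := mul_le_mul (by linarith) hr4 (by norm_num) (by positivity)
    linarith
  have hE0 : 0 < E := by linarith
  rw [← hE] at hi
  obtain ⟨n, hn⟩ : ∃ n : ℕ, n = ⌈(q + M0 + 5) * E⌉₊ := ⟨_, rfl⟩
  have hn1 : (q + M0 + 5) * E ≤ n := by
    rw [hn]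
    exact Nat.le_ceil _
  have hX1 : 1 ≤ (q + M0 + 5) * E := by
    have h2 : (1 : ℝ) * 1 ≤ (q + M0 + 5) * E := mul_le_mul (by linarith) hE1 (by norm_num) (by linarith)
    linarith
  have hn2 : 16 * (n : ℝ) ≤ 2 ^ i := by
    have h1 := (Nat.ceil_lt_add_one (by linarith : (0 : ℝ) ≤ (q + M0 + 5) * E)).le
    rw [← hn] at h1
    linarith
  have hlogN : Real.log N - entT σ ≤ M := by
    have h1 : Real.log ((N : ℝ) / (S.card : ℝ)) = Real.log N - Real.log S.card :=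
      Real.log_div hN.ne' hSc.ne'
    rw [h1] at hM0
    have h2 : q * (16 * q) + 6 * (i : ℝ) * (16 * q) ^ 2 = 16 * q ^ 2 + 1536 * i * q ^ 2 := by ring
    rw [hM]
    linarith
  have hQn : 3 / 5 ≤ Qf ((smo σ)^[n] (gA A)) (cnv ν₁ (unif (-A))) (cnv ν₂ (unif A)) := by
    have h1 := (Qf_iter σ _ _ hσ.1 hπP hωP (gA A) (gA_nonneg A) (gA_le_one A) n).2
    have h2 : (n : ℝ) * Real.sqrt (mi (jnt σ (cnv ν₁ (unif (-A))) (cnv ν₂ (unif A)))) ≤ 1 / 8 := by
      have h3 : (n : ℝ) * Real.sqrt (mi (jnt σ (cnv ν₁ (unif (-A))) (cnv ν₂ (unif A))))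
          ≤ n * (2 * (1 / 2) ^ i) :=
        mul_le_mul_of_nonneg_left hmi (Nat.cast_nonneg _)
      refine h3.trans ?_
      have h4 : (n : ℝ) * (2 * (1 / 2) ^ i) = (2 * n) / 2 ^ i := by
        rw [one_div, inv_pow]
        ring
      rw [h4, div_le_div_iff₀ hpow0 (by norm_num)]
      linarith
    linarith
  have hη0 : 0 < 1 / E := by positivity
  have hη1 : 1 / E ≤ 1 := by
    rw [div_le_one hE0]
    exact hE1
  have hηE : 1 / E * (64 * 257 * M * (r : ℝ) ^ 4) ≤ 1 := by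
    rw [← hE, one_div_mul_cancel hE0.ne']
  have hAK : ((A - A).card : ℝ) ≤ (N : ℝ) / A.card * A.card := by
    rw [div_mul_cancel₀ _ hc.ne']
    have := Finset.card_le_univ (A - A)
    rw [ZMod.card] at this
    exact_mod_cast this
  have hNA : (N : ℝ) / A.card ≤ Real.exp (q + M0) := by
    have h1 : (S.card : ℝ) ≤ Real.exp q * A.card := by
      refine le_trans ?_ hAU
      have h2 : S ⊆ U (2 ^ i) := by
        intro s hs
        have h3 := hUS 0 s hs 0 (hU0 0)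
        rw [add_zero] at h3
        exact hmono' _ _ hm0 h3
      have h4 : (U (2 ^ i)).card ≤ (A + U (2 ^ i)).card := by
        obtain ⟨a, ha⟩ := hA
        refine Finset.card_le_card_of_injOn (fun u => a + u) ?_ ?_
        · intro u hu
          exact Finset.mem_coe.2 (Finset.mem_add.2 ⟨a, ha, u, Finset.mem_coe.1 hu, rfl⟩)
        · intro u _ v _ huv
          exact add_left_cancel huv
      have h5 := (Finset.card_le_card h2).trans h4
      exact_mod_cast h5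
    have h2 : (N : ℝ) ≤ Real.exp M0 * S.card := by
      have h3 : (N : ℝ) / S.card ≤ Real.exp M0 := by
        have := Real.exp_le_exp.2 hM0
        rwa [Real.exp_log (by positivity)] at this
      rwa [div_le_iff₀ hSc] at h3
    rw [div_le_iff₀ hc, Real.exp_add]
    calc (N : ℝ) ≤ Real.exp M0 * S.card := h2
      _ ≤ Real.exp M0 * (Real.exp q * A.card) := mul_le_mul_of_nonneg_left h1 (Real.exp_pos _).le
      _ = _ := by ring
  have hKn : (N : ℝ) / A.card * (1 - 1 / E) ^ n ≤ 1 / 64 := by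
    have h3 : 1 - 1 / E ≤ Real.exp (-(1 / E)) := by
      have := Real.add_one_le_exp (-(1 / E))
      linarith
    have h4 : (1 - 1 / E) ^ n ≤ Real.exp (-(1 / E)) ^ n := pow_le_pow_left₀ (by linarith) h3 n
    rw [← Real.exp_nat_mul] at h4
    have h5 : (n : ℝ) * -(1 / E) ≤ -(q + M0 + 5) := by
      have h6 : (q + M0 + 5) ≤ n * (1 / E) := by
        rw [mul_one_div, le_div_iff₀ hE0]
        exact hn1
      linarith
    have h7 : (1 - 1 / E) ^ n ≤ Real.exp (-(q + M0 + 5)) := h4.trans (Real.exp_le_exp.2 h5)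
    have h8 : 0 ≤ (1 - 1 / E) ^ n := pow_nonneg (by linarith) n
    calc (N : ℝ) / A.card * (1 - 1 / E) ^ n ≤ Real.exp (q + M0) * Real.exp (-(q + M0 + 5)) :=
          mul_le_mul hNA h7 h8 (Real.exp_pos _).le
      _ = Real.exp (-5) := by
          rw [← Real.exp_add]
          congr 1
          ring
      _ ≤ 1 / 64 := QB_exp5
  obtain ⟨Γ, hΓ, hincl⟩ := gl σ hσ.1 M (by linarith) hlogN (by omega : 2 ≤ r) hrM (1 / E) hη0.le hηE
  refine ⟨Γ, hΓ, fun x hx => ?_⟩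
  refine mem_of_noise A hA ν₁ ν₂ σ hν₁.1 hν₂.1 hσ.1 n ((N : ℝ) / A.card) (1 / E) hη0.le hη1 hAK hKn hQn x ?_
  intro γ hγ
  refine (hincl x hx γ hγ).trans ?_
  refine one_div_le_one_div_of_le (by norm_num) ?_
  linarith

end Pool.H15.RB
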