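import Pool.Agent.H15.RB.Bas
import Pool.Agent.H84.CP.Bcd

set_option autoImplicit false

/-!
MP_169871_nt, relative quadratic theorem: if `P₀` is the Bohr set of radius `1/t` of at most `t`
frequencies and `|A + P₀| ≤ exp q |A|` then `2A - 2A` contains a Bohr set with at most
`C (t + q²)` frequencies and radius at least `1 / (C (t + q²))`.
-/

namespace Pool.H15.RB

open Finset Pool.Agent.H18 Pool.H84.IT Pool.H84.CP
open scoped Pointwise

lemma bn_zero {N : ℕ} [NeZero N] : bn (0 : ZMod N) = 0 := by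
  rw [bn_eq_norm, map_zero, norm_zero]

lemma bn_neg {N : ℕ} [NeZero N] (y : ZMod N) : bn (-y) = bn y := by
  rw [bn_eq_norm, bn_eq_norm, map_neg, norm_neg]

lemma bn_add {N : ℕ} [NeZero N] (y z : ZMod N) : bn (y + z) ≤ bn y + bn z := by
  rw [bn_eq_norm, bn_eq_norm, bn_eq_norm, map_add]
  exact norm_add_le _ _

/-- The constant of the relative theorem. -/
noncomputable def CR : ℝ := 160000000

theorem rel_bohr {N : ℕ} [NeZero N] (Γ₀ P₀ : Finset (ZMod N)) (t q : ℝ) (ht : 2 ≤ t) (hq : 0 ≤ q)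
    (hΓ₀ : (Γ₀.card : ℝ) ≤ t) (hP₀ : ∀ x, (∀ γ ∈ Γ₀, bn (γ * x) ≤ 1 / t) → x ∈ P₀)
    (A : Finset (ZMod N)) (hA : A.Nonempty) (hAP : ((A + P₀).card : ℝ) ≤ Real.exp q * A.card) :
    ∃ (Γ : Finset (ZMod N)) (ε : ℝ), (Γ.card : ℝ) ≤ CR * (t + q ^ 2) ∧
      1 / (CR * (t + q ^ 2)) ≤ ε ∧ ∀ x : ZMod N, (∀ γ ∈ Γ, bn (γ * x) ≤ ε) →
        ∃ a₁ ∈ A, ∃ a₂ ∈ A, ∃ a₃ ∈ A, ∃ a₄ ∈ A, x = a₁ + a₂ - a₃ - a₄ := by
  classical
  have hN : (0 : ℝ) < N := by exact_mod_cast Nat.pos_of_ne_zero (NeZero.ne N)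
  have hc : (0 : ℝ) < A.card := by exact_mod_cast hA.card_pos
  have ht0 : 0 < t := by linarith
  -- normalisation of `q`
  obtain ⟨p, hp⟩ : ∃ p : ℝ, p = max q 1 := ⟨_, rfl⟩
  have hp1 : 1 ≤ p := by rw [hp]; exact le_max_right _ _
  have hqp : q ≤ p := by rw [hp]; exact le_max_left _ _
  have hp2 : p ^ 2 ≤ q ^ 2 + 1 := by
    rw [hp]
    rcases le_total q 1 with h | h
    · rw [max_eq_right h]
      have := sq_nonneg q
      linarith
    · rw [max_eq_left h]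
      linarith
  have hp0 : 0 < p := by linarith
  -- parameters
  obtain ⟨T, hT⟩ : ∃ T : ℝ, T = t + p ^ 2 := ⟨_, rfl⟩
  have hpp : 1 ≤ p ^ 2 := one_le_pow₀ hp1
  have hT3 : 3 ≤ T := by linarith
  have hT0 : 0 < T := by linarith
  have htT : t ≤ T := by linarith
  have hp2T : p ^ 2 ≤ T := by linarith
  have hpT : p ≤ T := by
    have h0 : 1 * p ≤ p * p := mul_le_mul_of_nonneg_right hp1 hp0.le
    have h1 : p ^ 2 = p * p := sq p
    linarith
  have hTq : T ≤ 2 * (t + q ^ 2) := by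
    have := sq_nonneg q
    linarith
  obtain ⟨ℓ, hℓ⟩ : ∃ ℓ : ℝ, ℓ = Real.log T := ⟨_, rfl⟩
  have hlog2 := Real.log_two_gt_d9
  have hlog2' := Real.log_two_lt_d9
  have hℓ1 : 1 ≤ ℓ := by
    rw [hℓ, Real.le_log_iff_exp_le hT0]
    have := Real.exp_one_lt_d9
    linarith
  have hℓ0 : 0 < ℓ := by linarith
  have hℓT : ℓ ≤ T := by
    rw [hℓ]
    exact (Real.log_le_sub_one_of_pos hT0).trans (by linarith)
  have hexpl : Real.exp ℓ = T := by rw [hℓ, Real.exp_log hT0]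
  obtain ⟨m, hm⟩ : ∃ m : ℕ, m = ⌈2 * ℓ⌉₊ := ⟨_, rfl⟩
  have hm1 : 2 * ℓ ≤ m := by
    rw [hm]
    exact Nat.le_ceil _
  have hm2 : (m : ℝ) ≤ 3 * ℓ := by
    have h1 := (Nat.ceil_lt_add_one (by linarith : (0 : ℝ) ≤ 2 * ℓ)).le
    rw [← hm] at h1
    linarith
  have hTm : T ≤ 2 ^ m := by
    have h1 : (2 : ℝ) ^ m = Real.exp (m * Real.log 2) := by
      rw [← Real.exp_log (by norm_num : (0 : ℝ) < 2), ← Real.exp_nat_mul, Real.exp_log (by norm_num)]
    rw [h1, ← hexpl]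
    refine Real.exp_le_exp.2 ?_
    have h2 : 2 * ℓ * (1 / 2) ≤ m * Real.log 2 := by
      refine mul_le_mul hm1 (by linarith) (by norm_num) (Nat.cast_nonneg _)
    linarith
  obtain ⟨i, hi⟩ : ∃ i : ℕ, i = 200 * m := ⟨_, rfl⟩
  have hiR : (i : ℝ) ≤ 600 * ℓ := by
    rw [hi]
    push_cast
    linarith
  have hi0 : (0 : ℝ) ≤ i := Nat.cast_nonneg i
  have hpow0 : (0 : ℝ) < 2 ^ i := by positivity
  have hpow1 : (1 : ℝ) ≤ 2 ^ i := one_le_pow₀ (by norm_num)
  obtain ⟨τ, hτ⟩ : ∃ τ : ℝ, τ = 1 / (t * 2 ^ i) := ⟨_, rfl⟩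
  have hτ0 : 0 < τ := by rw [hτ]; positivity
  -- the chain of supports
  obtain ⟨U, hU⟩ : ∃ U : ℕ → Finset (ZMod N),
      U = fun j : ℕ => Finset.univ.filter (fun x : ZMod N => ∀ γ ∈ Γ₀, bn (γ * x) ≤ (j : ℝ) * τ) := ⟨_, rfl⟩
  have hUm : ∀ j x, x ∈ U j ↔ ∀ γ ∈ Γ₀, bn (γ * x) ≤ j * τ := by
    intro j x
    rw [hU]
    simp
  have hU0 : ∀ j, (0 : ZMod N) ∈ U j := by
    intro j
    rw [hUm]
    intro γ _
    rw [mul_zero, bn_zero]
    positivity
  have hUn : ∀ j, ∀ u ∈ U j, -u ∈ U j := by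
    intro j u hu
    rw [hUm] at hu ⊢
    intro γ hγ
    rw [mul_neg, bn_neg]
    exact hu γ hγ
  have hUS : ∀ j, ∀ s ∈ U 1, ∀ u ∈ U j, s + u ∈ U (j + 1) := by
    intro j s hs u hu
    rw [hUm] at hs hu ⊢
    intro γ hγ
    rw [mul_add]
    have h1 := hs γ hγ
    have h2 := hu γ hγ
    push_cast at h1 ⊢
    have h3 := bn_add (γ * s) (γ * u)
    linarith
  have hmono : ∀ j, U j ⊆ U (j + 1) := by
    intro j u hu
    have := hUS j 0 (hU0 1) u hu
    rwa [zero_add] at this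
  have hUtop : U (2 ^ i) ⊆ P₀ := by
    intro x hx
    refine hP₀ x fun γ hγ => ?_
    rw [hUm] at hx
    refine (hx γ hγ).trans (le_of_eq ?_)
    rw [hτ]
    push_cast
    field_simp
  have hAU : ((A + U (2 ^ i)).card : ℝ) ≤ Real.exp p * A.card := by
    have h1 : ((A + U (2 ^ i)).card : ℝ) ≤ ((A + P₀).card : ℝ) := by
      exact_mod_cast Finset.card_le_card (Finset.add_subset_add_left hUtop)
    refine h1.trans (hAP.trans ?_)
    exact mul_le_mul_of_nonneg_right (Real.exp_le_exp.2 hqp) hc.le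
  -- the size of `S`
  have hSc : (0 : ℝ) < (U 1).card := by exact_mod_cast Finset.card_pos.2 ⟨0, hU0 1⟩
  have hbc := bohr_card Γ₀ τ hτ0 (U 1) (by
    intro x
    rw [hUm]
    simp)
  obtain ⟨M0, hM0⟩ : ∃ M0 : ℝ, M0 = t * (Real.log (2 * t) + i * Real.log 2) := ⟨_, rfl⟩
  have hlog2t : 0 ≤ Real.log (2 * t) := Real.log_nonneg (by linarith)
  have hM0' : Real.log ((N : ℝ) / ((U 1).card : ℝ)) ≤ M0 := by
    have h1 : 1 + 1 / τ ≤ 2 * t * 2 ^ i := by
      rw [hτ, one_div_one_div]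
      have : 1 * 1 ≤ t * 2 ^ i := mul_le_mul (by linarith) hpow1 (by norm_num) ht0.le
      linarith
    have h2 : 0 < 1 + 1 / τ := by positivity
    have h3 : (N : ℝ) / ((U 1).card : ℝ) ≤ (1 + 1 / τ) ^ Γ₀.card := by
      rw [div_le_iff₀ hSc, mul_comm]
      exact hbc
    have h4 := Real.log_le_log (by positivity) h3
    rw [Real.log_pow] at h4
    have h5 : Real.log (1 + 1 / τ) ≤ Real.log (2 * t) + i * Real.log 2 := by
      have h6 := Real.log_le_log h2 h1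
      rwa [Real.log_mul (by positivity) (by positivity), Real.log_pow] at h6
    have h7 : 0 ≤ Real.log (2 * t) + i * Real.log 2 := by positivity
    rw [hM0]
    calc Real.log ((N : ℝ) / ((U 1).card : ℝ)) ≤ Γ₀.card * Real.log (1 + 1 / τ) := h4
      _ ≤ Γ₀.card * (Real.log (2 * t) + i * Real.log 2) :=
          mul_le_mul_of_nonneg_left h5 (Nat.cast_nonneg _)
      _ ≤ t * (Real.log (2 * t) + i * Real.log 2) := mul_le_mul_of_nonneg_right hΓ₀ h7
  have hM0b : M0 ≤ 602 * (T * ℓ) := by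
    have h1 : Real.log (2 * t) ≤ 2 * ℓ := by
      rw [Real.log_mul (by norm_num) ht0.ne']
      have h2 : Real.log t ≤ ℓ := by
        rw [hℓ]
        exact Real.log_le_log ht0 htT
      linarith
    have h2 : i * Real.log 2 ≤ 600 * ℓ := by
      have : i * Real.log 2 ≤ i * 1 := mul_le_mul_of_nonneg_left (by linarith) hi0
      linarith
    have h3 : 0 ≤ Real.log (2 * t) + i * Real.log 2 := by positivity
    rw [hM0]
    calc t * (Real.log (2 * t) + i * Real.log 2) ≤ T * (602 * ℓ) :=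
          mul_le_mul htT (by linarith) h3 hT0.le
      _ = _ := by ring
  have hM0nn : 0 ≤ M0 := by rw [hM0]; positivity
  obtain ⟨M, hM⟩ : ∃ M : ℝ, M = M0 + 16 * p ^ 2 + 1536 * i * p ^ 2 := ⟨_, rfl⟩
  have hTℓ : 3 ≤ T * ℓ := by
    have h0 : 3 * 1 ≤ T * ℓ := mul_le_mul hT3 hℓ1 (by norm_num) hT0.le
    linarith
  have hMb : M ≤ 1000000 * (T * ℓ) := by
    have h0 : T * 1 ≤ T * ℓ := mul_le_mul_of_nonneg_left hℓ1 hT0.le
    have h1 : 16 * p ^ 2 ≤ 16 * (T * ℓ) := by linarith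
    have h2 : 1536 * i * p ^ 2 ≤ 1536 * (600 * ℓ) * T := by
      refine mul_le_mul ?_ hp2T (by positivity) (by positivity)
      linarith
    rw [hM]
    linarith
  have hM16 : 16 ≤ M := by
    have h2 : 0 ≤ 1536 * i * p ^ 2 := by positivity
    rw [hM]
    linarith
  obtain ⟨r, hr⟩ : ∃ r : ℕ, r = ⌈10000000 * T⌉₊ := ⟨_, rfl⟩
  have hr1 : 10000000 * T ≤ r := by
    rw [hr]
    exact Nat.le_ceil _
  have hr2 : (r : ℝ) ≤ 20000000 * T := by
    have h1 := (Nat.ceil_lt_add_one (by positivity : (0 : ℝ) ≤ 10000000 * T)).le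
    rw [← hr] at h1
    linarith
  have hr0 : (0 : ℝ) < r := by linarith
  have hr63 : 63 ≤ r := by
    have h1 : (63 : ℝ) ≤ r := by linarith
    exact_mod_cast h1
  have hlr : ℓ ≤ Real.log r := by
    rw [hℓ]
    exact Real.log_le_log hT0 (by linarith)
  have hlr0 : 0 < Real.log r := by linarith
  have hrM : 6 * M ≤ r * Real.log r := by
    have h1 : (10000000 * T) * ℓ ≤ r * Real.log r := mul_le_mul hr1 hlr hℓ0.le hr0.le
    linarith
  have hTT : T * ℓ ≤ T ^ 2 := by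
    have := mul_le_mul_of_nonneg_left hℓT hT0.le
    linarith [sq T]
  have hE : 64 * 257 * M * (r : ℝ) ^ 4 ≤ 3000000000000000000000000000000000000000 * T ^ 6 := by
    have h1 : (r : ℝ) ^ 4 ≤ (20000000 * T) ^ 4 := pow_le_pow_left₀ hr0.le hr2 4
    have h2 : 64 * 257 * M * (r : ℝ) ^ 4 ≤ 64 * 257 * (1000000 * T ^ 2) * (20000000 * T) ^ 4 := by
      refine mul_le_mul (by linarith) h1 (by positivity) (by positivity)
    refine h2.trans ?_
    have h3 : 64 * 257 * (1000000 * T ^ 2) * (20000000 * T) ^ 4 =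
        (64 * 257 * 1000000 * 20000000 ^ 4) * T ^ 6 := by ring
    rw [h3]
    have h4 : 0 ≤ T ^ 6 := by positivity
    have h5 : (64 * 257 * 1000000 * 20000000 ^ 4 : ℝ) ≤ 3000000000000000000000000000000000000000 := by norm_num
    exact mul_le_mul_of_nonneg_right h5 h4
  have hfin : 32 * ((p + M0 + 5) * (64 * 257 * M * (r : ℝ) ^ 4)) ≤ 2 ^ i := by
    have h1 : (2 : ℝ) ^ i = (2 ^ m) ^ 200 := by
      rw [hi, ← pow_mul, mul_comm]
    rw [h1]
    have h2 : T ^ 200 ≤ ((2 : ℝ) ^ m) ^ 200 := pow_le_pow_left₀ hT0.le hTm 200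
    refine le_trans ?_ h2
    have h3 : T ^ 200 = T ^ 192 * T ^ 8 := by rw [← pow_add]
    rw [h3]
    have h4 : (3 : ℝ) ^ 192 ≤ T ^ 192 := pow_le_pow_left₀ (by norm_num) hT3 192
    have h5 : (3 : ℝ) ^ 192 * T ^ 8 ≤ T ^ 192 * T ^ 8 := mul_le_mul_of_nonneg_right h4 (by positivity)
    refine le_trans ?_ h5
    have h6 : p + M0 + 5 ≤ 1000 * T ^ 2 := by
      have h7 : 3 * T ≤ T ^ 2 := by
        have h0 : 3 * T ≤ T * T := mul_le_mul_of_nonneg_right hT3 hT0.le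
        rw [sq]
        exact h0
      linarith
    have h8 : (p + M0 + 5) * (64 * 257 * M * (r : ℝ) ^ 4) ≤
        (1000 * T ^ 2) * (3000000000000000000000000000000000000000 * T ^ 6) :=
      mul_le_mul h6 hE (by positivity) (by positivity)
    have h9 : (1000 * T ^ 2) * (3000000000000000000000000000000000000000 * T ^ 6) =
        3000000000000000000000000000000000000000000 * T ^ 8 := by ring
    rw [h9] at h8
    have h10 : 0 ≤ T ^ 8 := by positivity
    have h11 : (32 * 3000000000000000000000000000000000000000000 : ℝ) ≤ 3 ^ 192 := by norm_num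
    have h12 := mul_le_mul_of_nonneg_right h11 h10
    linarith
  obtain ⟨Γ, hΓ, hincl⟩ := rel_core A (U 1) hA U (hU0 1) (hUn 1) hU0 hUn hmono hUS p M0 M hp1 hM0' i hAU
    hM r hr63 hrM hfin
  have hCR : CR = 160000000 := rfl
  refine ⟨Γ, 1 / (4 * (r : ℝ)), ?_, ?_, hincl⟩
  · refine hΓ.trans ?_
    have h1 : 15 * M / Real.log r ≤ 15000000 * T := by
      rw [div_le_iff₀ hlr0]
      have h2 : 15000000 * T * ℓ ≤ 15000000 * T * Real.log r :=
        mul_le_mul_of_nonneg_left hlr (by positivity)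
      linarith
    rw [hCR]
    linarith
  · rw [hCR]
    refine one_div_le_one_div_of_le (by positivity) ?_
    linarith

end Pool.H15.RB
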