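import Pool.Agent.H15.RB.Sta

set_option autoImplicit false

/-!
MP_169871_nt, relative quadratic theorem: the noise with restricted support.
-/

namespace Pool.H15.RB

open Finset Pool.Agent.H18

variable {G : Type*} [AddCommGroup G] [Fintype G]

lemma mi_le_of_min_on (S : Finset G) (σ π ω : G → ℝ) (hσ : PrOn S σ) (hπ : IsPr π) (hω : IsPr ω)
    (θ : ℝ) (hmin : ∀ τ, PrOn S τ → Phi π θ σ ≤ Phi π θ τ) :
    mi (jnt σ π ω) ≤ θ * (entT (cnv σ ω) - entT ω) := by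
  have hR : mgr (jnt σ π ω) = cnv σ ω := mgr_jnt σ π ω hπ.2
  have hP : mgl (jnt σ π ω) = cnv (rv σ) π := mgl_jnt σ π ω hω.2
  have hR1 : ∑ c, cnv σ ω c = 1 := (hσ.1.cnv hω).2
  have hR0 := (hσ.1.cnv hω).1
  have key : ∀ c, cnv σ ω c * Phi π θ σ ≤ cnv σ ω c *
      (entT (fun z => jnt σ π ω (z, c) / cnv σ ω c)
        - θ * entT (fun s => jn2 σ ω (s, c) / cnv σ ω c)) := by
    intro c
    rcases (hR0 c).eq_or_lt with h | h
    · rw [← h, zero_mul, zero_mul]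
    · refine mul_le_mul_of_nonneg_left ?_ h.le
      have hτ : PrOn S (fun s => jn2 σ ω (s, c) / cnv σ ω c) := by
        refine ⟨⟨fun s => div_nonneg (mul_nonneg (hσ.1.1 _) (hω.1 _)) h.le, ?_⟩, fun s hs => ?_⟩
        · rw [← Finset.sum_div]
          exact div_self h.ne'
        · unfold jn2
          simp only
          rw [hσ.2 s hs, zero_mul, zero_div]
      refine (hmin _ hτ).trans (le_of_eq ?_)
      unfold Phi
      congr 2
      funext z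
      rw [cnv_rv]
      unfold jnt jn2
      simp only
      rw [Finset.sum_div]
      refine Finset.sum_congr rfl fun s _ => ?_
      ring
  have hsum := Finset.sum_le_sum (fun c (_ : c ∈ Finset.univ) => key c)
  rw [← Finset.sum_mul, hR1, one_mul] at hsum
  have c1 := chain_rule (jnt σ π ω) (jnt_nonneg σ π ω hσ.1.1 hπ.1 hω.1)
  have c2 := chain_rule (jn2 σ ω) (fun t => mul_nonneg (hσ.1.1 _) (hω.1 _))
  rw [hR] at c1
  rw [mgr_jn2, entT_jn2 σ ω hσ.1.2 hω.2] at c2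
  have hsplit : ∑ c, cnv σ ω c * (entT (fun z => jnt σ π ω (z, c) / cnv σ ω c)
        - θ * entT (fun s => jn2 σ ω (s, c) / cnv σ ω c))
      = ∑ c, cnv σ ω c * entT (fun z => jnt σ π ω (z, c) / cnv σ ω c)
        - θ * ∑ c, cnv σ ω c * entT (fun s => jn2 σ ω (s, c) / cnv σ ω c) := by
    rw [Finset.mul_sum, ← Finset.sum_sub_distrib]
    refine Finset.sum_congr rfl fun c _ => ?_
    ring
  rw [hsplit] at hsum
  unfold mi
  rw [hP, hR]
  unfold Phi at hsum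
  have e1 : ∑ c, cnv σ ω c * entT (fun z => jnt σ π ω (z, c) / cnv σ ω c)
      = entT (jnt σ π ω) - entT (cnv σ ω) := by linarith
  have e2 : ∑ c, cnv σ ω c * entT (fun s => jn2 σ ω (s, c) / cnv σ ω c)
      = entT σ + entT ω - entT (cnv σ ω) := by linarith
  rw [e1, e2] at hsum
  linarith

lemma exists_min_on (S : Finset G) (hS : S.Nonempty) (π : G → ℝ) (θ : ℝ) :
    ∃ σ, PrOn S σ ∧ ∀ τ, PrOn S τ → Phi π θ σ ≤ Phi π θ τ := by
  classical
  have hc := isCompact_prOn S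
  have hne : {p : G → ℝ | PrOn S p}.Nonempty := by
    refine ⟨unif S, ⟨unif_nonneg _, sum_unif _ hS⟩, fun x hx => ?_⟩
    unfold unif
    rw [if_neg hx]
  have hcont : Continuous (Phi π θ) := by
    unfold Phi
    have h1 : Continuous (fun τ : G → ℝ => entT (cnv (rv τ) π)) :=
      continuous_entT.comp ((continuous_cnv_left π).comp continuous_rv)
    exact h1.sub (continuous_const.mul continuous_entT)
  obtain ⟨σ, hσ, hmin⟩ := hc.exists_isMinOn hne hcont.continuousOn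
  exact ⟨σ, hσ, fun τ hτ => hmin hτ⟩

/-- Bounds for the minimising noise at an almost optimal state. -/
lemma min_bounds_on (S : Finset G) (σ π ω : G → ℝ) (hσ : PrOn S σ) (hπ : IsPr π) (hω : IsPr ω)
    (θ Λ η : ℝ) (hθ : 0 < θ) (hΛ : 0 < Λ) (hη : η ≤ θ * Λ ^ 2)
    (hmin : ∀ τ, PrOn S τ → Phi π θ σ ≤ Phi π θ τ)
    (hst : (entT (cnv (rv σ) π) - entT π) + (entT (cnv σ ω) - entT ω)
      ≤ Λ * Real.sqrt (mi (jnt σ π ω)) + η) :
    Real.sqrt (mi (jnt σ π ω)) ≤ 2 * (θ * Λ) ∧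
      entT (cnv (rv σ) π) - entT π ≤ 3 * (θ * Λ ^ 2) := by
  have hκ : 0 ≤ entT (cnv (rv σ) π) - entT π :=
    sub_nonneg.mpr (ent_le_ent_cnv _ _ hσ.1.rv.1 hσ.1.rv.2 hπ.1)
  have hh : 0 ≤ entT (cnv σ ω) - entT ω :=
    sub_nonneg.mpr (ent_le_ent_cnv _ _ hσ.1.1 hσ.1.2 hω.1)
  have hmi := mi_le_of_min_on S σ π ω hσ hπ hω θ hmin
  have hmi0 := mi_nonneg (jnt σ π ω) (jnt_nonneg σ π ω hσ.1.1 hπ.1 hω.1) (sum_jnt σ π ω hσ.1 hπ hω)
  obtain ⟨r, hr⟩ : ∃ r, r = Real.sqrt (mi (jnt σ π ω)) := ⟨_, rfl⟩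
  rw [← hr] at hst ⊢
  have hr0 : 0 ≤ r := by rw [hr]; exact Real.sqrt_nonneg _
  have hr2 : r * r = mi (jnt σ π ω) := by rw [hr]; exact Real.mul_self_sqrt hmi0
  have hΘ : 0 < θ * Λ := mul_pos hθ hΛ
  have h1 : r * r ≤ (θ * Λ) * r + (θ * Λ) * (θ * Λ) := by
    rw [hr2]
    refine hmi.trans ?_
    have h2 : θ * (entT (cnv σ ω) - entT ω) ≤ θ * (Λ * r + η) :=
      mul_le_mul_of_nonneg_left (by linarith) hθ.le
    have h3 : θ * η ≤ θ * (θ * Λ ^ 2) := mul_le_mul_of_nonneg_left hη hθ.le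
    have h4 : θ * (Λ * r + η) = (θ * Λ) * r + θ * η := by ring
    have h5 : θ * (θ * Λ ^ 2) = (θ * Λ) * (θ * Λ) := by ring
    linarith
  have h2 : r ≤ 2 * (θ * Λ) := by
    by_contra hno
    push Not at hno
    have h3 : (θ * Λ) * (θ * Λ) ≤ (θ * Λ) * r := mul_le_mul_of_nonneg_left (by linarith) hΘ.le
    have h4 : (2 * (θ * Λ)) * r < r * r := mul_lt_mul_of_pos_right hno (by linarith)
    linarith
  refine ⟨h2, ?_⟩
  have h3 : Λ * r ≤ Λ * (2 * (θ * Λ)) := mul_le_mul_of_nonneg_left h2 hΛ.le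
  have h4 : 3 * (θ * Λ ^ 2) = Λ * (2 * (θ * Λ)) + θ * Λ ^ 2 := by ring
  rw [h4]
  linarith

/-- Noise supported in `S`, of small information at all dyadic scales. -/
theorem exists_noise_on (S : Finset G) (hS : S.Nonempty) (π ω : G → ℝ) (hπ : IsPr π)
    (hω : IsPr ω) (Λ q η : ℝ) (hΛ : 0 < Λ)
    (hq : ∀ τ, PrOn S τ → entT (cnv (rv τ) π) - entT π ≤ q)
    (hst : ∀ σ, PrOn S σ → (entT (cnv (rv σ) π) - entT π) + (entT (cnv σ ω) - entT ω)
      ≤ Λ * Real.sqrt (mi (jnt σ π ω)) + η) (i : ℕ) (hη : η ≤ Λ * (1 / 2) ^ i) :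
    ∃ σ, PrOn S σ ∧ Real.sqrt (mi (jnt σ π ω)) ≤ 2 * (1 / 2) ^ i ∧
      entT (cnv (rv σ) π) - entT π ≤ 3 * (Λ * (1 / 2) ^ i) ∧
      Real.log S.card - entT σ ≤ q * Λ + 6 * i * Λ ^ 2 := by
  classical
  induction i with
  | zero =>
    rw [pow_zero, mul_one] at hη
    obtain ⟨σ, hσ, hmin⟩ := exists_min_on S hS π (1 / Λ)
    have e1 : 1 / Λ * Λ = 1 := by field_simp
    have e2 : 1 / Λ * Λ ^ 2 = Λ := by field_simp
    obtain ⟨h1, h2⟩ := min_bounds_on S σ π ω hσ hπ hω (1 / Λ) Λ η (by positivity) hΛ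
      (by rw [e2]; exact hη) hmin (hst σ hσ)
    rw [e1] at h1
    rw [e2] at h2
    refine ⟨σ, hσ, by rw [pow_zero]; exact h1, by rw [pow_zero, mul_one]; exact h2, ?_⟩
    have hu : PrOn S (unif S) := by
      refine ⟨⟨unif_nonneg _, sum_unif _ hS⟩, fun x hx => ?_⟩
      unfold unif
      rw [if_neg hx]
    have h3 := hmin _ hu
    unfold Phi at h3
    have h4 : entT (unif S) = Real.log S.card := ent_unif S hS
    have h5 := hq _ hu
    have h6 : entT π ≤ entT (cnv (rv σ) π) := ent_le_ent_cnv _ _ hσ.1.rv.1 hσ.1.rv.2 hπ.1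
    rw [h4] at h3
    have h7 : 1 / Λ * (Real.log S.card - entT σ) ≤ q := by
      have : 1 / Λ * (Real.log S.card - entT σ)
        = 1 / Λ * Real.log S.card - 1 / Λ * entT σ := by ring
      linarith
    rw [div_mul_eq_mul_div, one_mul, div_le_iff₀ hΛ] at h7
    simpa using h7
  | succ i ih =>
    have hη' : η ≤ Λ * (1 / 2) ^ i := by
      refine hη.trans ?_
      refine mul_le_mul_of_nonneg_left ?_ hΛ.le
      rw [pow_succ]
      have : (0 : ℝ) < (1 / 2) ^ i := by positivity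
      linarith
    obtain ⟨σ₀, hσ₀, hm0, hk0, hd0⟩ := ih hη'
    obtain ⟨θ, hθ⟩ : ∃ θ : ℝ, θ = 1 / Λ * (1 / 2) ^ (i + 1) := ⟨_, rfl⟩
    have hθ0 : 0 < θ := by rw [hθ]; positivity
    have e1 : θ * Λ = (1 / 2) ^ (i + 1) := by rw [hθ]; field_simp
    have e2 : θ * Λ ^ 2 = Λ * (1 / 2) ^ (i + 1) := by rw [hθ]; field_simp
    obtain ⟨σ, hσ, hmin⟩ := exists_min_on S hS π θ
    obtain ⟨h1, h2⟩ := min_bounds_on S σ π ω hσ hπ hω θ Λ η hθ0 hΛ (by rw [e2]; exact hη) hmin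
      (hst σ hσ)
    rw [e1] at h1
    rw [e2] at h2
    refine ⟨σ, hσ, h1, h2, ?_⟩
    have h3 := hmin _ hσ₀
    unfold Phi at h3
    have h6 : entT π ≤ entT (cnv (rv σ) π) := ent_le_ent_cnv _ _ hσ.1.rv.1 hσ.1.rv.2 hπ.1
    have h7 : θ * (entT σ₀ - entT σ) ≤ 3 * (Λ * (1 / 2) ^ i) := by
      have : θ * (entT σ₀ - entT σ) = θ * entT σ₀ - θ * entT σ := by ring
      linarith
    have h8 : θ * (6 * Λ ^ 2) = 3 * (Λ * (1 / 2) ^ i) := by
      have : θ * (6 * Λ ^ 2) = 6 * (θ * Λ ^ 2) := by ring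
      rw [this, e2, pow_succ]
      ring
    rw [← h8] at h7
    have h9 : entT σ₀ - entT σ ≤ 6 * Λ ^ 2 := le_of_mul_le_mul_left h7 hθ0
    push_cast
    linarith

end Pool.H15.RB
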