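import Pool.Agent.H18.Vari

set_option autoImplicit false

/-!
MP_169871_nt, relative quadratic theorem: the variational principles of `Pool/Agent/H18/Vari.lean`
for distributions with restricted supports.
-/

namespace Pool.H15.RB

open Finset Pool.Agent.H18

variable {G : Type*} [AddCommGroup G] [Fintype G]

/-- `p` is a probability distribution supported in `S`. -/
def PrOn (S : Finset G) (p : G → ℝ) : Prop := IsPr p ∧ ∀ x, x ∉ S → p x = 0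

omit [AddCommGroup G] in
lemma isCompact_prOn (S : Finset G) : IsCompact {p : G → ℝ | PrOn S p} := by
  have h1 : {p : G → ℝ | PrOn S p} = stdSimplex ℝ G ∩ ⋂ x ∈ ((S : Set G)ᶜ), {p : G → ℝ | p x = 0} := by
    ext p
    simp only [PrOn, IsPr, stdSimplex, Set.mem_inter_iff, Set.mem_iInter]
    constructor
    · rintro ⟨h, h2⟩
      exact ⟨h, fun x hx => h2 x (by simpa using hx)⟩
    · rintro ⟨h, h2⟩
      exact ⟨h, fun x hx => h2 x (by simpa using hx)⟩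
  rw [h1]
  refine (isCompact_stdSimplex ℝ G).inter_right ?_
  refine isClosed_biInter fun x _ => ?_
  exact isClosed_eq (continuous_apply x) continuous_const

/-- Sums of supports. -/
lemma PrOn.cnv {U V W : Finset G} {p q : G → ℝ} (hp : PrOn U p) (hq : PrOn V q)
    (h : ∀ u ∈ U, ∀ v ∈ V, u + v ∈ W) : PrOn W (cnv p q) := by
  refine ⟨hp.1.cnv hq.1, fun x hx => ?_⟩
  unfold Pool.Agent.H18.cnv
  refine Finset.sum_eq_zero fun s _ => ?_
  by_cases h1 : s ∈ U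
  · by_cases h2 : x - s ∈ V
    · exact absurd (by have := h s h1 _ h2; rwa [add_sub_cancel] at this) hx
    · rw [hq.2 _ h2, mul_zero]
  · rw [hp.2 _ h1, zero_mul]

lemma PrOn.rv {U : Finset G} {p : G → ℝ} (hp : PrOn U p) (h : ∀ u ∈ U, -u ∈ U) :
    PrOn U (rv p) := by
  refine ⟨hp.1.rv, fun x hx => ?_⟩
  unfold Pool.Agent.H18.rv
  refine hp.2 _ fun h1 => hx ?_
  have := h _ h1
  rwa [neg_neg] at this

/-- The functional maximised by the state. -/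
noncomputable def Jf (a b φ : G → ℝ) (Λ : ℝ) (p : (G → ℝ) × (G → ℝ)) : ℝ :=
  entT (cnv p.1 a) + entT (cnv p.2 b) + Λ * Qf φ (cnv p.1 a) (cnv p.2 b)

lemma continuous_Jf (a b φ : G → ℝ) (Λ : ℝ) : Continuous (Jf a b φ Λ) := by
  unfold Jf
  have e1 : Continuous (fun p : (G → ℝ) × (G → ℝ) => cnv p.1 a) :=
    (continuous_cnv_left a).comp continuous_fst
  have e2 : Continuous (fun p : (G → ℝ) × (G → ℝ) => cnv p.2 b) :=
    (continuous_cnv_left b).comp continuous_snd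
  exact ((continuous_entT.comp e1).add (continuous_entT.comp e2)).add
    (continuous_const.mul ((continuous_Qf φ).comp (e1.prodMk e2)))

lemma exists_max (a b φ : G → ℝ) (Λ : ℝ) (U : Finset G) (h0 : (0 : G) ∈ U) :
    ∃ ν₁ ν₂, PrOn U ν₁ ∧ PrOn U ν₂ ∧
      ∀ τ₁ τ₂, PrOn U τ₁ → PrOn U τ₂ → Jf a b φ Λ (τ₁, τ₂) ≤ Jf a b φ Λ (ν₁, ν₂) := by
  classical
  have hc : IsCompact ({p : G → ℝ | PrOn U p} ×ˢ {p : G → ℝ | PrOn U p}) :=
    (isCompact_prOn U).prod (isCompact_prOn U)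
  have hδ : PrOn U (unif ({0} : Finset G)) := by
    refine ⟨⟨unif_nonneg _, sum_unif _ (Finset.singleton_nonempty 0)⟩, fun x hx => ?_⟩
    unfold unif
    rw [if_neg]
    intro h
    rw [Finset.mem_singleton] at h
    exact hx (h ▸ h0)
  have hne : ({p : G → ℝ | PrOn U p} ×ˢ {p : G → ℝ | PrOn U p}).Nonempty := ⟨(_, _), hδ, hδ⟩
  obtain ⟨⟨ν₁, ν₂⟩, ⟨hν1, hν2⟩, hmax⟩ := hc.exists_isMaxOn hne (continuous_Jf a b φ Λ).continuousOn
  refine ⟨ν₁, ν₂, hν1, hν2, fun τ₁ τ₂ h1 h2 => ?_⟩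
  exact isMaxOn_iff.mp hmax (τ₁, τ₂) (Set.mk_mem_prod h1 h2)

/-- Optimal smoothing of a pair of distributions, with supports in a growing chain `U`. -/
theorem exists_state_on [DecidableEq G] (a b φ : G → ℝ) (Λ R : ℝ) (ha : IsPr a) (hb : IsPr b) (hΛ : 0 ≤ Λ)
    (h0 : ∀ x, 0 ≤ φ x) (h1 : ∀ x, φ x ≤ 1) (S : Finset G) (hS : ∀ s ∈ S, -s ∈ S)
    (U : ℕ → Finset G) (hU0 : ∀ j, (0 : G) ∈ U j) (hmono : ∀ j, U j ⊆ U (j + 1))
    (hUS : ∀ j, ∀ s ∈ S, ∀ u ∈ U j, s + u ∈ U (j + 1)) (m : ℕ) (hm : 0 < m)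
    (hR : ∀ ν₁ ν₂, PrOn (U m) ν₁ → PrOn (U m) ν₂ →
      Jf a b φ Λ (ν₁, ν₂) ≤ entT a + entT b + Λ * Qf φ a b + R) :
    ∃ j, j < m ∧ ∃ ν₁ ν₂ : G → ℝ, PrOn (U j) ν₁ ∧ PrOn (U j) ν₂ ∧
      entT a + entT b + Λ * Qf φ a b
        ≤ entT (cnv ν₁ a) + entT (cnv ν₂ b) + Λ * Qf φ (cnv ν₁ a) (cnv ν₂ b) ∧
      ∀ σ, PrOn S σ →
        (entT (cnv (rv σ) (cnv ν₁ a)) - entT (cnv ν₁ a))
          + (entT (cnv σ (cnv ν₂ b)) - entT (cnv ν₂ b))
          ≤ Λ * Real.sqrt (mi (jnt σ (cnv ν₁ a) (cnv ν₂ b))) + R / m := by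
  classical
  choose ν₁ ν₂ hν1 hν2 hmax using fun j => exists_max a b φ Λ (U j) (hU0 j)
  obtain ⟨J, hJ⟩ : ∃ J : ℕ → ℝ, J = fun j => Jf a b φ Λ (ν₁ j, ν₂ j) := ⟨_, rfl⟩
  have hJ' : ∀ j, Jf a b φ Λ (ν₁ j, ν₂ j) = J j := fun j => by rw [hJ]
  have hmonoP : ∀ j p, PrOn (U j) p → PrOn (U (j + 1)) p := fun j p hp =>
    ⟨hp.1, fun x hx => hp.2 x fun h => hx (hmono j h)⟩
  have hδ : ∀ j, PrOn (U j) (unif ({0} : Finset G)) := by
    intro j
    refine ⟨⟨unif_nonneg _, sum_unif _ (Finset.singleton_nonempty 0)⟩, fun x hx => ?_⟩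
    unfold unif
    rw [if_neg]
    intro h
    rw [Finset.mem_singleton] at h
    exact hx (h ▸ hU0 j)
  have hstart : ∀ j, entT a + entT b + Λ * Qf φ a b ≤ J j := by
    intro j
    have h := hmax j _ _ (hδ j) (hδ j)
    rw [hJ' j] at h
    refine le_trans (le_of_eq ?_) h
    unfold Jf
    simp only
    rw [cnv_unif_zero, cnv_unif_zero]
  have hend : J m ≤ entT a + entT b + Λ * Qf φ a b + R := by
    rw [← hJ' m]
    exact hR _ _ (hν1 m) (hν2 m)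
  have hmR : (0 : ℝ) < m := by exact_mod_cast hm
  -- pigeonhole
  have hpig : ∃ j, j < m ∧ J (j + 1) - J j ≤ R / m := by
    by_contra hno
    push Not at hno
    have h2 : ∑ j ∈ Finset.range m, (J (j + 1) - J j) = J m - J 0 := Finset.sum_range_sub J m
    have h3 : ∑ j ∈ Finset.range m, (R / m) < ∑ j ∈ Finset.range m, (J (j + 1) - J j) := by
      refine Finset.sum_lt_sum_of_nonempty ⟨0, Finset.mem_range.2 hm⟩ fun j hj => ?_
      exact hno j (Finset.mem_range.1 hj)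
    rw [Finset.sum_const, Finset.card_range, nsmul_eq_mul, mul_div_cancel₀ _ hmR.ne', h2] at h3
    have h4 := hstart 0
    linarith
  obtain ⟨j, hj, hjR⟩ := hpig
  refine ⟨j, hj, ν₁ j, ν₂ j, hν1 j, hν2 j, ?_, fun σ hσ => ?_⟩
  · have h := hstart j
    rw [← hJ' j] at h
    exact h
  · have hσr : PrOn S (rv σ) := hσ.rv hS
    have h := hmax (j + 1) (cnv (rv σ) (ν₁ j)) (cnv σ (ν₂ j)) (hσr.cnv (hν1 j) (hUS j))
      (hσ.cnv (hν2 j) (hUS j))
    rw [hJ' (j + 1)] at h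
    have e1 : cnv (cnv (rv σ) (ν₁ j)) a = cnv (rv σ) (cnv (ν₁ j) a) := funext fun x => cnv_assoc _ _ _ x
    have e2 : cnv (cnv σ (ν₂ j)) b = cnv σ (cnv (ν₂ j) b) := funext fun x => cnv_assoc _ _ _ x
    unfold Jf at h
    simp only at h
    rw [e1, e2] at h
    have h2 := Qf_noise σ (cnv (ν₁ j) a) (cnv (ν₂ j) b) hσ.1 ((hν1 j).1.cnv ha)
      ((hν2 j).1.cnv hb) φ h0 h1
    have h3 := mul_le_mul_of_nonneg_left h2 hΛ
    have h4 : J j = entT (cnv (ν₁ j) a) + entT (cnv (ν₂ j) b)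
        + Λ * Qf φ (cnv (ν₁ j) a) (cnv (ν₂ j) b) := by
      rw [← hJ' j]
      rfl
    linarith

end Pool.H15.RB
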