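import Mathlib

set_option autoImplicit false

/-!
MP_169871_nt, the form of the question over the integers: generalised arithmetic progressions in
`2A - 2A` under Freiman isomorphisms of order 6, and under reduction modulo `N`.
-/

namespace Pool.H15.RB

open Finset

section pull

variable {G H : Type*} [AddCommGroup G] [AddCommGroup H]

/-- `h` and `g` are corresponding elements of `2 φ(A) - 2 φ(A)` and `2A - 2A`. -/
def Rl (A : Finset G) (φ : G → H) (h : H) (g : G) : Prop :=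
  ∃ a₁ ∈ A, ∃ a₂ ∈ A, ∃ a₃ ∈ A, ∃ a₄ ∈ A, h = φ a₁ + φ a₂ - φ a₃ - φ a₄ ∧
    g = a₁ + a₂ - a₃ - a₄

/-- `φ` is a Freiman isomorphism of order 6 on `A`. -/
def Iso6 (A : Finset G) (φ : G → H) : Prop :=
  ∀ x y : Fin 6 → G, (∀ i, x i ∈ A) → (∀ i, y i ∈ A) →
    (∑ i, x i = ∑ i, y i ↔ ∑ i, φ (x i) = ∑ i, φ (y i))

variable {A : Finset G} {φ : G → H}

lemma rl_zero (hA : A.Nonempty) : Rl A φ 0 0 := by
  obtain ⟨a, ha⟩ := hA
  exact ⟨a, ha, a, ha, a, ha, a, ha, by abel, by abel⟩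

lemma rl_neg {h : H} {g : G} (hr : Rl A φ h g) : Rl A φ (-h) (-g) := by
  obtain ⟨a₁, h₁, a₂, h₂, a₃, h₃, a₄, h₄, rfl, rfl⟩ := hr
  exact ⟨a₃, h₃, a₄, h₄, a₁, h₁, a₂, h₂, by abel, by abel⟩

lemma rl_six (hφ : Iso6 A φ) {a₁ a₂ a₃ a₄ b₁ b₂ b₃ b₄ c₁ c₂ c₃ c₄ : G} (ha₁ : a₁ ∈ A) (ha₂ : a₂ ∈ A)
    (ha₃ : a₃ ∈ A) (ha₄ : a₄ ∈ A) (hb₁ : b₁ ∈ A) (hb₂ : b₂ ∈ A) (hb₃ : b₃ ∈ A) (hb₄ : b₄ ∈ A)
    (hc₁ : c₁ ∈ A) (hc₂ : c₂ ∈ A) (hc₃ : c₃ ∈ A) (hc₄ : c₄ ∈ A) :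
    (a₁ + a₂ - a₃ - a₄ + (b₁ + b₂ - b₃ - b₄) = c₁ + c₂ - c₃ - c₄ ↔
      φ a₁ + φ a₂ - φ a₃ - φ a₄ + (φ b₁ + φ b₂ - φ b₃ - φ b₄) = φ c₁ + φ c₂ - φ c₃ - φ c₄) := by
  have h := hφ ![a₁, a₂, b₁, b₂, c₃, c₄] ![c₁, c₂, a₃, a₄, b₃, b₄]
    (by intro i; fin_cases i <;> assumption) (by intro i; fin_cases i <;> assumption)
  rw [Fin.sum_univ_six, Fin.sum_univ_six, Fin.sum_univ_six, Fin.sum_univ_six] at h
  simp only [Matrix.cons_val] at h
  constructor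
  · intro e
    have e1 : a₁ + a₂ + b₁ + b₂ + c₃ + c₄ = c₁ + c₂ + a₃ + a₄ + b₃ + b₄ := by
      have e2 : a₁ + a₂ + b₁ + b₂ + c₃ + c₄
          = (a₁ + a₂ - a₃ - a₄ + (b₁ + b₂ - b₃ - b₄)) + (a₃ + a₄ + b₃ + b₄ + c₃ + c₄) := by abel
      rw [e2, e]
      abel
    have e3 := h.1 e1
    have e4 : φ a₁ + φ a₂ - φ a₃ - φ a₄ + (φ b₁ + φ b₂ - φ b₃ - φ b₄)
        = (φ a₁ + φ a₂ + φ b₁ + φ b₂ + φ c₃ + φ c₄) - (φ a₃ + φ a₄ + φ b₃ + φ b₄ + φ c₃ + φ c₄) := by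
      abel
    rw [e4, e3]
    abel
  · intro e
    have e1 : φ a₁ + φ a₂ + φ b₁ + φ b₂ + φ c₃ + φ c₄ = φ c₁ + φ c₂ + φ a₃ + φ a₄ + φ b₃ + φ b₄ := by
      have e2 : φ a₁ + φ a₂ + φ b₁ + φ b₂ + φ c₃ + φ c₄
          = (φ a₁ + φ a₂ - φ a₃ - φ a₄ + (φ b₁ + φ b₂ - φ b₃ - φ b₄))
            + (φ a₃ + φ a₄ + φ b₃ + φ b₄ + φ c₃ + φ c₄) := by abel
      rw [e2, e]
      abel
    have e3 := h.2 e1
    have e4 : a₁ + a₂ - a₃ - a₄ + (b₁ + b₂ - b₃ - b₄)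
        = (a₁ + a₂ + b₁ + b₂ + c₃ + c₄) - (a₃ + a₄ + b₃ + b₄ + c₃ + c₄) := by
      abel
    rw [e4, e3]
    abel

lemma rl_add (hφ : Iso6 A φ) {h h' : H} {g g' g'' : G} (hr : Rl A φ h g) (hr' : Rl A φ h' g')
    (hr'' : Rl A φ (h + h') g'') : g'' = g + g' := by
  obtain ⟨a₁, ha₁, a₂, ha₂, a₃, ha₃, a₄, ha₄, rfl, rfl⟩ := hr
  obtain ⟨b₁, hb₁, b₂, hb₂, b₃, hb₃, b₄, hb₄, rfl, rfl⟩ := hr'
  obtain ⟨c₁, hc₁, c₂, hc₂, c₃, hc₃, c₄, hc₄, e, rfl⟩ := hr''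
  exact ((rl_six hφ ha₁ ha₂ ha₃ ha₄ hb₁ hb₂ hb₃ hb₄ hc₁ hc₂ hc₃ hc₄).2 e).symm

lemma rl_inj (hφ : Iso6 A φ) {h h' : H} {g : G} (hr : Rl A φ h g) (hr' : Rl A φ h' g) : h = h' := by
  obtain ⟨a₁, ha₁, a₂, ha₂, a₃, ha₃, a₄, ha₄, rfl, e1⟩ := hr
  obtain ⟨c₁, hc₁, c₂, hc₂, c₃, hc₃, c₄, hc₄, rfl, e2⟩ := hr'
  have h1 := (rl_six hφ ha₁ ha₂ ha₃ ha₄ ha₁ ha₁ ha₁ ha₁ hc₁ hc₂ hc₃ hc₄).1 (by
    rw [← e2, e1]
    abel)
  rw [← h1]
  abel

lemma sum_split {K : Type*} [AddCommGroup K] {d : ℕ} (m m' : Fin d → ℤ) (k : Fin d) (ε : ℤ)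
    (hm'k : m' k = m k - ε) (hm'o : ∀ j, j ≠ k → m' j = m j) (z : Fin d → K) :
    ∑ j, m j • z j = ∑ j, m' j • z j + ε • z k := by
  rw [← Finset.add_sum_erase Finset.univ (fun j => m j • z j) (Finset.mem_univ k),
    ← Finset.add_sum_erase Finset.univ (fun j => m' j • z j) (Finset.mem_univ k)]
  have h2 : ∑ j ∈ Finset.univ.erase k, m j • z j = ∑ j ∈ Finset.univ.erase k, m' j • z j :=
    Finset.sum_congr rfl fun j hj => by rw [hm'o j (Finset.ne_of_mem_erase hj)]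
  rw [h2, hm'k, sub_zsmul]
  abel

variable {d : ℕ} {x : Fin d → H} {n : Fin d → ℕ}

/-- Pull back of a progression. -/
theorem gap_pull (hA : A.Nonempty) (hφ : Iso6 A φ)
    (hP : ∀ m : Fin d → ℤ, (∀ k, |m k| ≤ (n k : ℤ)) → ∃ g, Rl A φ (∑ k, m k • x k) g) :
    ∃ y : Fin d → G, ∀ m : Fin d → ℤ, (∀ k, |m k| ≤ (n k : ℤ)) →
      Rl A φ (∑ k, m k • x k) (∑ k, m k • y k) := by
  classical
  have hy : ∀ k, ∃ y : G, 1 ≤ n k → Rl A φ (x k) y := by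
    intro k
    by_cases hk : 1 ≤ n k
    · obtain ⟨g, hg⟩ := hP (Pi.single k 1) (by
        intro k'
        by_cases h : k' = k
        · subst h
          rw [Pi.single_eq_same]
          simpa using hk
        · rw [Pi.single_eq_of_ne h]
          simp)
      refine ⟨g, fun _ => ?_⟩
      have e : ∑ k', (Pi.single k 1 : Fin d → ℤ) k' • x k' = x k := by
        rw [Finset.sum_eq_single k]
        · rw [Pi.single_eq_same, one_zsmul]
        · intro b _ hb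
          rw [Pi.single_eq_of_ne hb, zero_zsmul]
        · intro h
          exact absurd (Finset.mem_univ k) h
      rwa [e] at hg
    · exact ⟨0, fun h => absurd h hk⟩
  choose y hy using hy
  refine ⟨y, ?_⟩
  have key : ∀ s : ℕ, ∀ m : Fin d → ℤ, (∀ k, |m k| ≤ (n k : ℤ)) → ∑ k, (m k).natAbs = s →
      Rl A φ (∑ k, m k • x k) (∑ k, m k • y k) := by
    intro s
    induction s with
    | zero =>
      intro m hm hs
      have h0 : ∀ k, m k = 0 := by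
        intro k
        have := (Finset.sum_eq_zero_iff.1 hs) k (Finset.mem_univ k)
        simpa using this
      have e1 : ∑ k, m k • x k = 0 := Finset.sum_eq_zero fun k _ => by rw [h0 k, zero_zsmul]
      have e2 : ∑ k, m k • y k = 0 := Finset.sum_eq_zero fun k _ => by rw [h0 k, zero_zsmul]
      rw [e1, e2]
      exact rl_zero hA
    | succ s ih =>
      intro m hm hs
      obtain ⟨k, hk⟩ : ∃ k, m k ≠ 0 := by
        by_contra hno
        push Not at hno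
        have : ∑ k, (m k).natAbs = 0 := Finset.sum_eq_zero fun k _ => by rw [hno k]; rfl
        omega
      obtain ⟨ε, hε, hε1⟩ : ∃ ε : ℤ, (ε = 1 ∨ ε = -1) ∧ (m k - ε).natAbs + 1 = (m k).natAbs := by
        rcases lt_or_gt_of_ne hk with h | h
        · exact ⟨-1, Or.inr rfl, by omega⟩
        · exact ⟨1, Or.inl rfl, by omega⟩
      obtain ⟨m', hm'⟩ : ∃ m' : Fin d → ℤ, m' = Function.update m k (m k - ε) := ⟨_, rfl⟩
      have hm'k : m' k = m k - ε := by rw [hm', Function.update_self]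
      have hm'o : ∀ j, j ≠ k → m' j = m j := fun j hj => by rw [hm', Function.update_of_ne hj]
      have hbox : ∀ j, |m' j| ≤ (n j : ℤ) := by
        intro j
        by_cases hj : j = k
        · subst hj
          rw [hm'k]
          have h1 := hm j
          rw [Int.abs_eq_natAbs] at h1 ⊢
          have h2 : (m j - ε).natAbs ≤ (m j).natAbs := by omega
          have h3 : ((m j - ε).natAbs : ℤ) ≤ ((m j).natAbs : ℤ) := by exact_mod_cast h2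
          linarith
        · rw [hm'o j hj]
          exact hm j
      have hsum' : ∑ j, (m' j).natAbs = s := by
        have h1 : ∑ j, (m j).natAbs = ∑ j, (m' j).natAbs + 1 := by
          rw [← Finset.add_sum_erase Finset.univ (fun j => (m j).natAbs) (Finset.mem_univ k),
            ← Finset.add_sum_erase Finset.univ (fun j => (m' j).natAbs) (Finset.mem_univ k)]
          have h2 : ∑ j ∈ Finset.univ.erase k, (m j).natAbs = ∑ j ∈ Finset.univ.erase k, (m' j).natAbs :=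
            Finset.sum_congr rfl fun j hj => by rw [hm'o j (Finset.ne_of_mem_erase hj)]
          rw [h2, hm'k]
          omega
        omega
      have hnk : 1 ≤ n k := by
        have h1 := hm k
        rw [Int.abs_eq_natAbs] at h1
        have h2 : 1 ≤ (m k).natAbs := by omega
        have h3 : (m k).natAbs ≤ n k := by exact_mod_cast h1
        omega
      have hr1 := ih m' hbox hsum'
      have hr2 : Rl A φ (ε • x k) (ε • y k) := by
        rcases hε with rfl | rfl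
        · rw [one_zsmul, one_zsmul]
          exact hy k hnk
        · rw [neg_one_zsmul, neg_one_zsmul]
          exact rl_neg (hy k hnk)
      obtain ⟨g, hg⟩ := hP m hm
      rw [sum_split m m' k ε hm'k hm'o x] at hg
      have e := rl_add hφ hr1 hr2 hg
      rw [sum_split m m' k ε hm'k hm'o x, sum_split m m' k ε hm'k hm'o y, ← e]
      exact hg
  exact fun m hm => key _ m hm rfl

/-- The box of coefficients is finite. -/
lemma box_finite (n : Fin d → ℕ) : {m : Fin d → ℤ | ∀ k, |m k| ≤ (n k : ℤ)}.Finite := by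
  have h : {m : Fin d → ℤ | ∀ k, |m k| ≤ (n k : ℤ)} = Set.Icc (fun k => -(n k : ℤ)) (fun k => (n k : ℤ)) := by
    ext m
    rw [Set.mem_Icc, Pi.le_def, Pi.le_def]
    constructor
    · intro h
      exact ⟨fun k => (abs_le.1 (h k)).1, fun k => (abs_le.1 (h k)).2⟩
    · rintro ⟨h1, h2⟩ k
      exact abs_le.2 ⟨h1 k, h2 k⟩
  rw [h]
  exact Set.finite_Icc _ _

/-- The pulled back progression is at least as large. -/
theorem gap_pull_card (hφ : Iso6 A φ) (y : Fin d → G)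
    (hy : ∀ m : Fin d → ℤ, (∀ k, |m k| ≤ (n k : ℤ)) → Rl A φ (∑ k, m k • x k) (∑ k, m k • y k)) :
    {h : H | ∃ m : Fin d → ℤ, (∀ k, |m k| ≤ (n k : ℤ)) ∧ h = ∑ k, m k • x k}.ncard ≤
      {g : G | ∃ m : Fin d → ℤ, (∀ k, |m k| ≤ (n k : ℤ)) ∧ g = ∑ k, m k • y k}.ncard := by
  classical
  have hfin : {g : G | ∃ m : Fin d → ℤ, (∀ k, |m k| ≤ (n k : ℤ)) ∧ g = ∑ k, m k • y k}.Finite := by
    refine ((box_finite n).image (fun m => ∑ k, m k • y k)).subset ?_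
    rintro g ⟨m, hm, rfl⟩
    exact ⟨m, hm, rfl⟩
  have hch : ∀ h : H, ∃ g : G, (∃ m : Fin d → ℤ, (∀ k, |m k| ≤ (n k : ℤ)) ∧ h = ∑ k, m k • x k) →
      ∃ m : Fin d → ℤ, (∀ k, |m k| ≤ (n k : ℤ)) ∧ h = ∑ k, m k • x k ∧ g = ∑ k, m k • y k := by
    intro h
    by_cases hh : ∃ m : Fin d → ℤ, (∀ k, |m k| ≤ (n k : ℤ)) ∧ h = ∑ k, m k • x k
    · obtain ⟨m, hm, rfl⟩ := hh
      exact ⟨_, fun _ => ⟨m, hm, rfl, rfl⟩⟩
    · exact ⟨0, fun h' => absurd h' hh⟩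
  choose f hf using hch
  refine Set.ncard_le_ncard_of_injOn f ?_ ?_ hfin
  · intro h hh
    obtain ⟨m, hm, -, h2⟩ := hf h hh
    exact ⟨m, hm, h2⟩
  · intro h hh h' hh' e
    obtain ⟨m, hm, h1, h2⟩ := hf h hh
    obtain ⟨m', hm', h1', h2'⟩ := hf h' hh'
    have r1 := hy m hm
    have r2 := hy m' hm'
    rw [← h1, ← h2, e] at r1
    rw [← h1', ← h2'] at r2
    exact rl_inj hφ r1 r2

end pull

end Pool.H15.RB
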