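import Pool.Agent.H15.RB.ZA
import Pool.Agent.H18.LQ.Main

set_option autoImplicit false

/-!
MP_169871_nt, the form of the question over the integers: a set of integers of small doubling has a
large subset Freiman isomorphic (order 6) to a dense subset of `Z_M`; and reduction modulo `N`.
-/

namespace Pool.H15.RB

open Finset
open scoped Pointwise

lemma cast_iff (R N : ℕ) (hN : 12 * R < N) (u v : ℤ) (h : |u - v| ≤ 12 * (R : ℤ)) :
    u = v ↔ (u : ZMod N) = (v : ZMod N) := by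
  constructor
  · rintro rfl; rfl
  · intro e
    rw [ZMod.intCast_eq_intCast_iff_dvd_sub] at e
    have h1 : v - u = 0 := by
      apply Int.eq_zero_of_abs_lt_dvd e
      rw [abs_sub_comm]
      refine lt_of_le_of_lt h ?_
      exact_mod_cast hN
    linarith

theorem int_model (A : Finset ℤ) (hA : A.Nonempty) (K : ℝ) (hK : 1 ≤ K)
    (hAK : ((A + A).card : ℝ) ≤ K * A.card) :
    ∃ (M : ℕ) (_ : NeZero M) (A₂ : Finset ℤ) (φ : ℤ → ZMod M), A₂ ⊆ A ∧ A₂.Nonempty ∧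
      A.card ≤ 72 * A₂.card ∧ 2 * A₂.card ≤ M ∧ (M : ℝ) ≤ 216 * K ^ 12 * A₂.card ∧ Iso6 A₂ φ := by
  classical
  obtain ⟨R, hR⟩ : ∃ R : ℕ, ∀ a ∈ A, |a| ≤ (R : ℤ) := by
    refine ⟨∑ a ∈ A, a.natAbs, fun a ha => ?_⟩
    rw [Int.abs_eq_natAbs]
    exact_mod_cast Finset.single_le_sum (f := fun a : ℤ => a.natAbs) (fun _ _ => Nat.zero_le _) ha
  obtain ⟨N, hN⟩ : ∃ N : ℕ, N = 12 * R + 1 := ⟨_, rfl⟩
  have hNe : NeZero N := ⟨by omega⟩
  have hlt : 12 * R < N := by omega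
  obtain ⟨A₁, hA₁⟩ : ∃ A₁ : Finset (ZMod N), A₁ = A.image (fun a : ℤ => (a : ZMod N)) := ⟨_, rfl⟩
  have hinj : ∀ a ∈ A, ∀ b ∈ A, (a : ZMod N) = (b : ZMod N) → a = b := by
    intro a ha b hb e
    refine (cast_iff R N hlt a b ?_).2 e
    have h1 := hR a ha
    have h2 := hR b hb
    have h3 := abs_sub a b
    have h4 : (0 : ℤ) ≤ R := Int.natCast_nonneg R
    linarith
  have hc₁ : A₁.card = A.card := by
    rw [hA₁]
    exact Finset.card_image_of_injOn fun a ha b hb e => hinj a ha b hb e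
  have hA₁ne : A₁.Nonempty := by rw [hA₁]; exact hA.image _
  obtain ⟨M, hM, B, φ, hBA, hBne, hBc, hBM, hMD, hφ⟩ := Pool.Agent.H18.LQ.model A₁ hA₁ne
  obtain ⟨A₂, hA₂⟩ : ∃ A₂ : Finset ℤ, A₂ = A.filter (fun a : ℤ => (a : ZMod N) ∈ B) := ⟨_, rfl⟩
  have hA₂A : A₂ ⊆ A := by rw [hA₂]; exact Finset.filter_subset _ _
  have himg : A₂.image (fun a : ℤ => (a : ZMod N)) = B := by
    ext b
    rw [Finset.mem_image]
    constructor
    · rintro ⟨a, ha, rfl⟩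
      rw [hA₂, Finset.mem_filter] at ha
      exact ha.2
    · intro hb
      have h1 := hBA hb
      rw [hA₁, Finset.mem_image] at h1
      obtain ⟨a, ha, rfl⟩ := h1
      refine ⟨a, ?_, rfl⟩
      rw [hA₂, Finset.mem_filter]
      exact ⟨ha, hb⟩
  have hc₂ : A₂.card = B.card := by
    rw [← himg]
    exact (Finset.card_image_of_injOn fun a ha b hb e => hinj a (hA₂A ha) b (hA₂A hb) e).symm
  have hA₂ne : A₂.Nonempty := by
    rw [← Finset.card_pos, hc₂]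
    exact hBne.card_pos
  refine ⟨M, hM, A₂, fun a => φ (a : ZMod N), hA₂A, hA₂ne, ?_, ?_, ?_, ?_⟩
  · rw [hc₂, ← hc₁]
    exact hBc
  · rw [hc₂]
    exact hBM
  · -- size of `M`
    have hadd : A₁ + A₁ ⊆ (A + A).image (fun a : ℤ => (a : ZMod N)) := by
      intro z hz
      rw [Finset.mem_add] at hz
      obtain ⟨u, hu, v, hv, rfl⟩ := hz
      rw [hA₁, Finset.mem_image] at hu hv
      obtain ⟨a, ha, rfl⟩ := hu
      obtain ⟨b, hb, rfl⟩ := hv
      rw [Finset.mem_image]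
      exact ⟨a + b, Finset.add_mem_add ha hb, by push_cast; rfl⟩
    have h1 : ((A₁ + A₁).card : ℝ) ≤ K * A₁.card := by
      rw [hc₁]
      refine le_trans ?_ hAK
      exact_mod_cast (Finset.card_le_card hadd).trans Finset.card_image_le
    have h2 := Finset.pluennecke_ruzsa_inequality_nsmul_sub_nsmul_add hA₁ne A₁ 6 6
    have hc₁0 : (0 : ℝ) < A₁.card := by exact_mod_cast hA₁ne.card_pos
    have h3 : (((6 • A₁) - (6 • A₁)).card : ℝ) ≤ (((A₁ + A₁).card : ℝ) / A₁.card) ^ (6 + 6) * A₁.card := by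
      have h4 := (NNRat.cast_le (K := ℝ)).2 h2
      push_cast at h4
      exact h4
    have h5 : ((A₁ + A₁).card : ℝ) / A₁.card ≤ K := by
      rw [div_le_iff₀ hc₁0]
      exact h1
    have h6 : (((6 • A₁) - (6 • A₁)).card : ℝ) ≤ K ^ 12 * A₁.card := by
      refine h3.trans ?_
      have : (((A₁ + A₁).card : ℝ) / A₁.card) ^ (6 + 6) ≤ K ^ 12 := by
        norm_num
        exact pow_le_pow_left₀ (by positivity) h5 12
      exact mul_le_mul_of_nonneg_right this hc₁0.le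
    have h7 : (M : ℝ) ≤ 2 * (((6 • A₁) - (6 • A₁)).card : ℝ) + 1 := by exact_mod_cast hMD
    have h8 : (A₁.card : ℝ) ≤ 72 * B.card := by exact_mod_cast hBc
    have h9 : (1 : ℝ) ≤ B.card := by exact_mod_cast hBne.card_pos
    have h10 : (1 : ℝ) ≤ K ^ 12 := one_le_pow₀ hK
    have h11 : K ^ 12 * (A₁.card : ℝ) ≤ K ^ 12 * (72 * B.card) :=
      mul_le_mul_of_nonneg_left h8 (by positivity)
    have h12 : 1 * 1 ≤ K ^ 12 * (B.card : ℝ) := mul_le_mul h10 h9 (by norm_num) (by positivity)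
    rw [hc₂]
    linarith
  · intro x y hx hy
    have hxB : ∀ i, ((x i : ℤ) : ZMod N) ∈ B := fun i => by
      have := hx i
      rw [hA₂, Finset.mem_filter] at this
      exact this.2
    have hyB : ∀ i, ((y i : ℤ) : ZMod N) ∈ B := fun i => by
      have := hy i
      rw [hA₂, Finset.mem_filter] at this
      exact this.2
    have h1 := hφ (fun i => (x i : ZMod N)) (fun i => (y i : ZMod N)) hxB hyB
    rw [← h1]
    have h2 := cast_iff R N hlt (∑ i, x i) (∑ i, y i) (by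
      have h3 : |∑ i, x i| ≤ 6 * (R : ℤ) := by
        refine (Finset.abs_sum_le_sum_abs _ _).trans ?_
        refine (Finset.sum_le_sum fun i _ => hR _ (hA₂A (hx i))).trans (le_of_eq ?_)
        simp
      have h4 : |∑ i, y i| ≤ 6 * (R : ℤ) := by
        refine (Finset.abs_sum_le_sum_abs _ _).trans ?_
        refine (Finset.sum_le_sum fun i _ => hR _ (hA₂A (hy i))).trans (le_of_eq ?_)
        simp
      have h5 := abs_sub (∑ i, x i) (∑ i, y i)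
      linarith)
    rw [h2]
    push_cast
    rfl

/-- Progressions in `2E - 2E`, `E` the model of `A₂`, give progressions of integers. -/
theorem int_gap {M : ℕ} (A₂ : Finset ℤ) (φ : ℤ → ZMod M) (hne : A₂.Nonempty)
    (hφ : Iso6 A₂ φ) (d : ℕ) (x : Fin d → ZMod M) (n : Fin d → ℕ)
    (hsub : ∀ m : Fin d → ℤ, (∀ k, |m k| ≤ (n k : ℤ)) →
      ∃ b₁ ∈ A₂.image φ, ∃ b₂ ∈ A₂.image φ, ∃ b₃ ∈ A₂.image φ, ∃ b₄ ∈ A₂.image φ,
        ∑ k, (m k : ZMod M) * x k = b₁ + b₂ - b₃ - b₄) :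
    ∃ y : Fin d → ℤ,
      (∀ m : Fin d → ℤ, (∀ k, |m k| ≤ (n k : ℤ)) →
        ∃ a₁ ∈ A₂, ∃ a₂ ∈ A₂, ∃ a₃ ∈ A₂, ∃ a₄ ∈ A₂, ∑ k, m k * y k = a₁ + a₂ - a₃ - a₄) ∧
      {h : ZMod M | ∃ m : Fin d → ℤ, (∀ k, |m k| ≤ (n k : ℤ)) ∧ h = ∑ k, (m k : ZMod M) * x k}.ncard ≤
        {g : ℤ | ∃ m : Fin d → ℤ, (∀ k, |m k| ≤ (n k : ℤ)) ∧ g = ∑ k, m k * y k}.ncard := by
  classical
  obtain ⟨y, hy⟩ := gap_pull (A := A₂) (φ := φ) (x := x) (n := n) hne hφ (by
    intro m hm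
    obtain ⟨b₁, h₁, b₂, h₂, b₃, h₃, b₄, h₄, e⟩ := hsub m hm
    rw [Finset.mem_image] at h₁ h₂ h₃ h₄
    obtain ⟨a₁, g₁, rfl⟩ := h₁
    obtain ⟨a₂, g₂, rfl⟩ := h₂
    obtain ⟨a₃, g₃, rfl⟩ := h₃
    obtain ⟨a₄, g₄, rfl⟩ := h₄
    refine ⟨a₁ + a₂ - a₃ - a₄, a₁, g₁, a₂, g₂, a₃, g₃, a₄, g₄, ?_, rfl⟩
    rw [← e]
    exact Finset.sum_congr rfl fun k _ => by rw [zsmul_eq_mul])
  refine ⟨y, fun m hm => ?_, ?_⟩
  · obtain ⟨a₁, g₁, a₂, g₂, a₃, g₃, a₄, g₄, -, e⟩ := hy m hm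
    refine ⟨a₁, g₁, a₂, g₂, a₃, g₃, a₄, g₄, ?_⟩
    rw [← e]
    exact Finset.sum_congr rfl fun k _ => by rw [smul_eq_mul]
  · have h1 := gap_pull_card (x := x) (n := n) hφ y hy
    simp only [zsmul_eq_mul, smul_eq_mul] at h1
    convert h1 using 4

/-! ### Reduction modulo `N` -/

lemma lift_card {N : ℕ} [NeZero N] (A : Finset (ZMod N)) :
    (A.image (fun a : ZMod N => (a.val : ℤ))).card = A.card := by
  refine Finset.card_image_of_injective _ fun a b h => ?_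
  exact ZMod.val_injective N (by exact_mod_cast h)

lemma lift_sum_card {N : ℕ} [NeZero N] (A : Finset (ZMod N)) :
    (A.image (fun a : ZMod N => (a.val : ℤ)) + A.image (fun a : ZMod N => (a.val : ℤ))).card ≤ 2 * N := by
  classical
  have h : A.image (fun a : ZMod N => (a.val : ℤ)) + A.image (fun a : ZMod N => (a.val : ℤ)) ⊆
      Finset.Ico 0 (2 * (N : ℤ)) := by
    intro z hz
    rw [Finset.mem_add] at hz
    obtain ⟨u, hu, v, hv, rfl⟩ := hz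
    rw [Finset.mem_image] at hu hv
    obtain ⟨a, -, rfl⟩ := hu
    obtain ⟨b, -, rfl⟩ := hv
    have h1 : (a.val : ℤ) < N := by exact_mod_cast ZMod.val_lt a
    have h2 : (b.val : ℤ) < N := by exact_mod_cast ZMod.val_lt b
    rw [Finset.mem_Ico]
    omega
  have h1 := Finset.card_le_card h
  rw [Int.card_Ico] at h1
  refine h1.trans ?_
  omega

theorem mod_gap {N : ℕ} [NeZero N] (A : Finset (ZMod N)) (d : ℕ) (x : Fin d → ℤ) (n : Fin d → ℕ)
    (hsub : ∀ m : Fin d → ℤ, (∀ k, |m k| ≤ (n k : ℤ)) →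
      ∃ b₁ ∈ A.image (fun a : ZMod N => (a.val : ℤ)), ∃ b₂ ∈ A.image (fun a : ZMod N => (a.val : ℤ)),
        ∃ b₃ ∈ A.image (fun a : ZMod N => (a.val : ℤ)), ∃ b₄ ∈ A.image (fun a : ZMod N => (a.val : ℤ)),
        ∑ k, m k * x k = b₁ + b₂ - b₃ - b₄) :
    (∀ m : Fin d → ℤ, (∀ k, |m k| ≤ (n k : ℤ)) →
        ∃ a₁ ∈ A, ∃ a₂ ∈ A, ∃ a₃ ∈ A, ∃ a₄ ∈ A,
          ∑ k, (m k : ZMod N) * ((x k : ℤ) : ZMod N) = a₁ + a₂ - a₃ - a₄) ∧
      {g : ℤ | ∃ m : Fin d → ℤ, (∀ k, |m k| ≤ (n k : ℤ)) ∧ g = ∑ k, m k * x k}.ncard ≤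
      4 * {h : ZMod N | ∃ m : Fin d → ℤ, (∀ k, |m k| ≤ (n k : ℤ)) ∧
        h = ∑ k, (m k : ZMod N) * ((x k : ℤ) : ZMod N)}.ncard := by
  classical
  have hNpos : (0 : ℤ) < N := by exact_mod_cast Nat.pos_of_ne_zero (NeZero.ne N)
  have hcast : ∀ m : Fin d → ℤ, ((∑ k, m k * x k : ℤ) : ZMod N) =
      ∑ k, (m k : ZMod N) * ((x k : ℤ) : ZMod N) := by
    intro m
    push_cast
    rfl
  constructor
  · intro m hm
    obtain ⟨b₁, h₁, b₂, h₂, b₃, h₃, b₄, h₄, e⟩ := hsub m hm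
    rw [Finset.mem_image] at h₁ h₂ h₃ h₄
    obtain ⟨a₁, g₁, rfl⟩ := h₁
    obtain ⟨a₂, g₂, rfl⟩ := h₂
    obtain ⟨a₃, g₃, rfl⟩ := h₃
    obtain ⟨a₄, g₄, rfl⟩ := h₄
    refine ⟨a₁, g₁, a₂, g₂, a₃, g₃, a₄, g₄, ?_⟩
    rw [← hcast, e]
    push_cast
    simp only [ZMod.natCast_zmod_val]
  · have hfin : {g : ℤ | ∃ m : Fin d → ℤ, (∀ k, |m k| ≤ (n k : ℤ)) ∧ g = ∑ k, m k * x k}.Finite := by
      refine ((box_finite n).image (fun m => ∑ k, m k * x k)).subset ?_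
      rintro g ⟨m, hm, rfl⟩
      exact ⟨m, hm, rfl⟩
    obtain ⟨P, hP⟩ : ∃ P : Finset ℤ, P = hfin.toFinset := ⟨_, rfl⟩
    have hPm : ∀ g, g ∈ P ↔ ∃ m : Fin d → ℤ, (∀ k, |m k| ≤ (n k : ℤ)) ∧ g = ∑ k, m k * x k := by
      intro g
      rw [hP, hfin.mem_toFinset]
      rfl
    have himg : {h : ZMod N | ∃ m : Fin d → ℤ, (∀ k, |m k| ≤ (n k : ℤ)) ∧
        h = ∑ k, (m k : ZMod N) * ((x k : ℤ) : ZMod N)} =
        ((P.image (fun g : ℤ => (g : ZMod N)) : Finset (ZMod N)) : Set (ZMod N)) := by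
      ext h
      rw [Finset.mem_coe, Finset.mem_image]
      constructor
      · rintro ⟨m, hm, rfl⟩
        exact ⟨∑ k, m k * x k, (hPm _).2 ⟨m, hm, rfl⟩, hcast m⟩
      · rintro ⟨g, hg, rfl⟩
        obtain ⟨m, hm, rfl⟩ := (hPm g).1 hg
        exact ⟨m, hm, hcast m⟩
    rw [himg, Set.ncard_coe_finset, Set.ncard_eq_toFinset_card _ hfin, ← hP]
    refine Finset.card_le_mul_card_image P 4 fun r _ => ?_
    -- a fibre has at most four elements
    have h1 : ∀ g ∈ P, -2 * (N : ℤ) ≤ g ∧ g < 2 * (N : ℤ) := by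
      intro g hg
      obtain ⟨m, hm, rfl⟩ := (hPm g).1 hg
      obtain ⟨b₁, h₁, b₂, h₂, b₃, h₃, b₄, h₄, e⟩ := hsub m hm
      rw [Finset.mem_image] at h₁ h₂ h₃ h₄
      obtain ⟨a₁, g₁, rfl⟩ := h₁
      obtain ⟨a₂, g₂, rfl⟩ := h₂
      obtain ⟨a₃, g₃, rfl⟩ := h₃
      obtain ⟨a₄, g₄, rfl⟩ := h₄
      have l1 : (a₁.val : ℤ) < N := by exact_mod_cast ZMod.val_lt a₁
      have l2 : (a₂.val : ℤ) < N := by exact_mod_cast ZMod.val_lt a₂
      have l3 : (a₃.val : ℤ) < N := by exact_mod_cast ZMod.val_lt a₃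
      have l4 : (a₄.val : ℤ) < N := by exact_mod_cast ZMod.val_lt a₄
      rw [e]
      constructor <;> omega
    have h2 : (P.filter (fun g : ℤ => (g : ZMod N) = r)).card ≤ (Finset.Ico (-2 : ℤ) 2).card := by
      refine Finset.card_le_card_of_injOn (fun g => g / (N : ℤ)) ?_ ?_
      · intro g hg
        rw [Finset.mem_coe, Finset.mem_filter] at hg
        obtain ⟨l, u⟩ := h1 g hg.1
        rw [Finset.mem_coe, Finset.mem_Ico]
        constructor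
        · rw [Int.le_ediv_iff_mul_le hNpos]
          exact l
        · exact Int.ediv_lt_of_lt_mul hNpos u
      · intro g hg g' hg' e
        rw [Finset.mem_coe, Finset.mem_filter] at hg hg'
        simp only at e
        have h3 : ((g : ℤ) : ZMod N) = ((g' : ℤ) : ZMod N) := by rw [hg.2, hg'.2]
        rw [ZMod.intCast_eq_intCast_iff'] at h3
        have h4 := Int.emod_add_mul_ediv g N
        have h5 := Int.emod_add_mul_ediv g' N
        rw [e, h3] at h4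
        linarith
    refine h2.trans ?_
    rw [Int.card_Ico]
    norm_num

end Pool.H15.RB
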